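import Pool.Agent.helper55.MC.C2of
import Pool.Agent.helper25.MC.B2
import Pool.Agent.helper13.MC.K
import Pool.Agent.helper63.MC.B0

/-!
Module C2 of project MC (final statements).
-/

namespace Pool.Agent.helper76.MC

open Finset Pool.Agent.helper34.DH Pool.Agent.helper76.FV Pool.Agent.helper76.LP
open Pool.Agent.helper76.UR
open Matrix (SpecialLinearGroup)

lemma C2_B0_holds : C2_B0 := by
  classical
  intro N hN V _ _ ϱ h1 s t u hs ht hu
  have hc := isCong_of hN ϱ h1 hs ht hu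
  refine ⟨_, hc, ?_, ?_⟩
  · rw [mk_emb _ (isCong_ne hc), C2_filter_rho, Multiset.map_add, Multiset.map_add,
      Multiset.sum_add, Multiset.sum_add]
  · rw [C2_filter_sum, Multiset.sum_add, Multiset.sum_add]

theorem cong_of_rep {N : ℕ} (hN : 0 < N) {t : Multiset QZ} (h : CongRep N 1 t) :
    ∃ (c : Multiset QZ) (a b b' : ℕ), IsCong c ∧ b + b' ≤ Multiset.card t ∧
      mk (helper34.DH.emb c) = (t.map Pool.Agent.helper34.DH.ρ).sum + a • hh + b • F (1 / 3) +
        b' • F (2 / 3) ∧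
      t.sum + a • half + b • ((1 / 3 : ℚ) : QZ) + b' • ((2 / 3 : ℚ) : QZ) = 0 :=
  cong_of_rep_of C2_B0_holds isCong_sum hN h

theorem three_mem : (3 : ℤ) • F (1 / 3) ∈ MG :=
  three_mem_of C2_B0_holds isCong_sum rep_six

theorem cf_mem (m : ℕ) [NeZero m] (e : ZMod m → ℕ) (h : CF m 1 e) :
    cls m (fun x => (e x : ℤ)) ∈ MG' :=
  cf_mem_of C2_B0_holds isCong_sum m e h

end Pool.Agent.helper76.MC
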