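import Pool.Agent.helper31.MC.A2
import Pool.Agent.helper46.MC.A1

/-!
Module C2 of project MC: from representations to `IsCong`; the results of the modules B0, B2, K
are hypotheses.
-/

namespace Pool.Agent.helper76.MC

open Finset Pool.Agent.helper34.DH Pool.Agent.helper76.FV Pool.Agent.helper76.LP
open Pool.Agent.helper76.UR
open Matrix (SpecialLinearGroup)

/-- statement of `isCong_of` (module B0) -/
def C2_B0 : Prop := ∀ {N : ℕ} (_ : 0 < N) {V : Type} [AddCommGroup V] [Module ℂ V]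
    (ϱ : Representation ℂ (SpecialLinearGroup (Fin 2) (ZMod N)) V) (_ : ϱ (-1) = 1)
    {s t u : Multiset QZ} (_ : Exps (ϱ (mS N)) s) (_ : Exps (ϱ (mT N)) t)
    (_ : Exps (ϱ (mU N)) u), ∃ c, IsCong c ∧ mk (helper34.DH.emb c) =
      (s.map Pool.Agent.helper34.DH.ρ).sum + (t.map Pool.Agent.helper34.DH.ρ).sum +
        (u.map Pool.Agent.helper34.DH.ρ).sum ∧ c.sum = s.sum + t.sum + u.sum

lemma C2_filter_rho (s : Multiset QZ) [DecidablePred fun x : QZ => x ≠ 0] :
    ((s.filter fun x => x ≠ 0).map Pool.Agent.helper34.DH.ρ).sum =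
      (s.map Pool.Agent.helper34.DH.ρ).sum := by
  induction s using Multiset.induction_on with
  | empty => simp
  | cons a s ih =>
    by_cases h : a = 0
    · have hf : (a ::ₘ s).filter (fun x => x ≠ 0) = s.filter (fun x => x ≠ 0) :=
        Multiset.filter_cons_of_neg s (by simpa using h)
      rw [hf, ih, Multiset.map_cons, Multiset.sum_cons, h]
      have : Pool.Agent.helper34.DH.ρ 0 = 0 := by
        unfold Pool.Agent.helper34.DH.ρ; rw [if_pos rfl]
      rw [this, zero_add]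
    · have hf : (a ::ₘ s).filter (fun x => x ≠ 0) = a ::ₘ s.filter (fun x => x ≠ 0) :=
        Multiset.filter_cons_of_pos (p := fun x : QZ => x ≠ 0) s h
      rw [hf, Multiset.map_cons, Multiset.sum_cons, ih, Multiset.map_cons, Multiset.sum_cons]

lemma C2_filter_sum (s : Multiset QZ) [DecidablePred fun x : QZ => x ≠ 0] :
    (s.filter fun x => x ≠ 0).sum = s.sum := by
  induction s using Multiset.induction_on with
  | empty => simp
  | cons a s ih =>
    by_cases h : a = 0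
    · have hf : (a ::ₘ s).filter (fun x => x ≠ 0) = s.filter (fun x => x ≠ 0) :=
        Multiset.filter_cons_of_neg s (by simpa using h)
      rw [hf, ih, Multiset.sum_cons, h, zero_add]
    · have hf : (a ::ₘ s).filter (fun x => x ≠ 0) = a ::ₘ s.filter (fun x => x ≠ 0) :=
        Multiset.filter_cons_of_pos (p := fun x : QZ => x ≠ 0) s h
      rw [hf, Multiset.sum_cons, ih, Multiset.sum_cons]

lemma C2_two (x : QZ) (s : Multiset QZ) (h : ∀ y ∈ s, y = 0 ∨ y = x) :
    ∃ a : ℕ, s.sum = a • x ∧ (s.map Pool.Agent.helper34.DH.ρ).sum =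
      a • Pool.Agent.helper34.DH.ρ x := by
  induction s using Multiset.induction_on with
  | empty => exact ⟨0, by simp, by simp⟩
  | cons y s ih =>
    obtain ⟨a, h1, h2⟩ := ih (fun z hz => h z (by simp [hz]))
    have h0 : Pool.Agent.helper34.DH.ρ 0 = 0 := by
      unfold Pool.Agent.helper34.DH.ρ; rw [if_pos rfl]
    rcases h y (by simp) with rfl | rfl
    · exact ⟨a, by rw [Multiset.sum_cons, zero_add, h1],
        by rw [Multiset.map_cons, Multiset.sum_cons, h0, zero_add, h2]⟩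
    · exact ⟨a + 1, by rw [Multiset.sum_cons, h1, add_smul, one_smul, add_comm],
        by rw [Multiset.map_cons, Multiset.sum_cons, h2, add_smul, one_smul, add_comm]⟩

lemma C2_three (x y : QZ) (s : Multiset QZ) (h : ∀ z ∈ s, z = 0 ∨ z = x ∨ z = y) :
    ∃ b b' : ℕ, b + b' ≤ Multiset.card s ∧ s.sum = b • x + b' • y ∧
      (s.map Pool.Agent.helper34.DH.ρ).sum = b • Pool.Agent.helper34.DH.ρ x +
        b' • Pool.Agent.helper34.DH.ρ y := by
  induction s using Multiset.induction_on with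
  | empty => exact ⟨0, 0, by simp, by simp, by simp⟩
  | cons z s ih =>
    obtain ⟨b, b', h3, h1, h2⟩ := ih (fun w hw => h w (by simp [hw]))
    have h0 : Pool.Agent.helper34.DH.ρ 0 = 0 := by
      unfold Pool.Agent.helper34.DH.ρ; rw [if_pos rfl]
    rcases h z (by simp) with rfl | rfl | rfl
    · exact ⟨b, b', by rw [Multiset.card_cons]; omega, by rw [Multiset.sum_cons, zero_add, h1],
        by rw [Multiset.map_cons, Multiset.sum_cons, h0, zero_add, h2]⟩
    · refine ⟨b + 1, b', by rw [Multiset.card_cons]; omega, ?_, ?_⟩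
      · rw [Multiset.sum_cons, h1, add_smul, one_smul]; abel
      · rw [Multiset.map_cons, Multiset.sum_cons, h2, add_smul, one_smul]; abel
    · refine ⟨b, b' + 1, by rw [Multiset.card_cons]; omega, ?_, ?_⟩
      · rw [Multiset.sum_cons, h1, add_smul, one_smul]; abel
      · rw [Multiset.map_cons, Multiset.sum_cons, h2, add_smul, one_smul]; abel

lemma C2_S2 (N : ℕ) : mS N * mS N = -1 := by
  ext i j
  fin_cases i <;> fin_cases j <;> simp [mS, Matrix.mul_apply, Fin.sum_univ_two]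

lemma C2_ST3 (N : ℕ) : (mS N * mT N) * (mS N * mT N) * (mS N * mT N) = -1 := by
  ext i j
  fin_cases i <;> fin_cases j <;>
    simp [mS, mT, Matrix.mul_apply, Fin.sum_univ_two]

lemma C2_U3 (N : ℕ) : mU N * mU N * mU N = -1 := by
  have h := C2_ST3 N
  have h1 : mU N * mU N * mU N = ((mS N * mT N) * (mS N * mT N) * (mS N * mT N))⁻¹ := by
    unfold mU
    group
  rw [h1, h]
  rw [inv_eq_iff_mul_eq_one]
  simp

theorem cong_of_rep_of (hB0 : C2_B0) (hsum : ∀ {c : Multiset QZ}, IsCong c → c.sum = 0)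
    {N : ℕ} (hN : 0 < N) {t : Multiset QZ} (h : CongRep N 1 t) :
    ∃ (c : Multiset QZ) (a b b' : ℕ), IsCong c ∧ b + b' ≤ Multiset.card t ∧
      mk (helper34.DH.emb c) = (t.map Pool.Agent.helper34.DH.ρ).sum + a • hh + b • F (1 / 3) +
        b' • F (2 / 3) ∧
      t.sum + a • half + b • ((1 / 3 : ℚ) : QZ) + b' • ((2 / 3 : ℚ) : QZ) = 0 := by
  obtain ⟨V, iV, iM, ϱ, h1, h2⟩ := h
  rw [one_smul] at h1
  obtain ⟨hfin, hcard⟩ := card_exps _ _ h2
  have hS : (ϱ (mS N)) ^ 2 = 1 := by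
    rw [pow_two, ← map_mul, C2_S2, h1]
  have hU : (ϱ (mU N)) ^ 3 = 1 := by
    rw [pow_succ, pow_two, ← map_mul, ← map_mul, C2_U3, h1]
  obtain ⟨s, hs, hs2⟩ := exps_of_pow (ϱ (mS N)) 2 (by norm_num) hS
  obtain ⟨u, hu, hu3⟩ := exps_of_pow (ϱ (mU N)) 3 (by norm_num) hU
  obtain ⟨c, hc, hc1, hc2⟩ := hB0 hN ϱ h1 hs h2 hu
  obtain ⟨a, ha1, ha2⟩ := C2_two half s (fun x hx => two_torsion x (hs2 x hx))
  obtain ⟨b, b', hb0, hb1, hb2⟩ := C2_three ((1 / 3 : ℚ) : QZ) ((2 / 3 : ℚ) : QZ) u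
    (fun x hx => three_torsion x (hu3 x hx))
  have hcu := (card_exps _ _ hu).2
  refine ⟨c, a, b, b', hc, by omega, ?_, ?_⟩
  · rw [hc1, ha2, hb2]
    have e1 : Pool.Agent.helper34.DH.ρ half = hh := rfl
    have e2 : Pool.Agent.helper34.DH.ρ ((1 / 3 : ℚ) : QZ) = F (1 / 3) := rfl
    have e3 : Pool.Agent.helper34.DH.ρ ((2 / 3 : ℚ) : QZ) = F (2 / 3) := rfl
    rw [e1, e2, e3]
    abel
  · have h5 := hsum hc
    rw [hc2, ha1, hb1] at h5
    rw [← h5]
    abel

lemma C2_F23 : F (2 / 3) = - F (1 / 3) := by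
  rw [← F_neg, show (2 / 3 : ℚ) = -(1 / 3) + ((1 : ℤ) : ℚ) by norm_num, F_add_int]

lemma C2_F16 : F (1 / 6) = (2 : ℤ) • F (1 / 3) + hh := by
  have h := dist_two (1 / 6)
  rw [show (1 / 6 + 1 / 2 : ℚ) = 2 / 3 by norm_num, show (2 * (1 / 6) : ℚ) = 1 / 3 by norm_num,
    C2_F23] at h
  rw [two_smul]
  have h2 : F (1 / 6) = F (1 / 3) + hh + F (1 / 3) := by
    rw [← h]; abel
  rw [h2]; abel

theorem three_mem_of (hB0 : C2_B0) (hsum : ∀ {c : Multiset QZ}, IsCong c → c.sum = 0)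
    (hK : CongRep 6 1 {((1 / 6 : ℚ) : QZ)}) : (3 : ℤ) • F (1 / 3) ∈ MG := by
  obtain ⟨c, a, b, b', hc, hbb, h1, h2⟩ := cong_of_rep_of hB0 hsum (by norm_num) hK
  have hsim : (({((1 / 6 : ℚ) : QZ)} : Multiset QZ).map Pool.Agent.helper34.DH.ρ).sum =
      F (1 / 6) := by
    simp [F]
  rw [hsim, C2_F16] at h1
  rw [Multiset.sum_singleton] at h2
  have h3 : (((1 / 6 + a * (1 / 2) + b * (1 / 3) + b' * (2 / 3) : ℚ)) : QZ) = 0 := by
    rw [← h2]
    unfold half
    rw [AddCircle.coe_add, AddCircle.coe_add, AddCircle.coe_add]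
    rw [← nsmul_eq_mul a, ← nsmul_eq_mul b, ← nsmul_eq_mul b', AddCircle.coe_nsmul,
      AddCircle.coe_nsmul, AddCircle.coe_nsmul]
  rw [coe_eq_zero_iff, Int.fract_eq_zero_iff] at h3
  obtain ⟨n, hn⟩ := h3
  have h4 : (6 * n : ℚ) = 1 + 3 * a + 2 * b + 4 * b' := by
    rw [hn]; ring
  have h5 : 6 * n = 1 + 3 * (a : ℤ) + 2 * b + 4 * b' := by exact_mod_cast h4
  have hcard : b + b' ≤ 1 := by simpa using hbb
  have hb : b = 1 ∧ b' = 0 := by omega
  obtain ⟨rfl, rfl⟩ := hb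
  have hmem : mk (helper34.DH.emb c) ∈ MG := AddSubgroup.subset_closure (Or.inl ⟨c, hc, rfl⟩)
  have hhm : hh ∈ MG := AddSubgroup.subset_closure (Or.inr rfl)
  have h6 : (3 : ℤ) • F (1 / 3) = mk (helper34.DH.emb c) - (a + 1) • hh := by
    rw [h1, add_smul, one_smul, zero_smul, one_smul, show (3 : ℤ) = 2 + 1 by norm_num, add_smul,
      one_smul]
    abel
  rw [h6]
  exact MG.sub_mem hmem (MG.nsmul_mem hhm _)

theorem cf_mem_of (hB0 : C2_B0) (hsum : ∀ {c : Multiset QZ}, IsCong c → c.sum = 0)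
    (m : ℕ) [NeZero m] (e : ZMod m → ℕ) (h : CF m 1 e) :
    cls m (fun x => (e x : ℤ)) ∈ MG' := by
  obtain ⟨c, a, b, b', hc, -, h1, -⟩ :=
    cong_of_rep_of hB0 hsum (Nat.pos_of_ne_zero (NeZero.ne m)) h
  have h2 : ((mset e).map Pool.Agent.helper34.DH.ρ).sum = cls m (fun x => (e x : ℤ)) := by
    have hφ : ∀ s : Multiset QZ, (s.map Pool.Agent.helper34.DH.ρ).sum =
        ((Multiset.sumAddMonoidHom).comp (Multiset.mapAddMonoidHom
          Pool.Agent.helper34.DH.ρ)) s := fun s => rfl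
    rw [hφ]
    unfold mset LP.cls
    rw [map_sum]
    refine Finset.sum_congr rfl fun x _ => ?_
    rw [map_nsmul]
    have e1 : ((Multiset.sumAddMonoidHom).comp (Multiset.mapAddMonoidHom
          Pool.Agent.helper34.DH.ρ)) ({pt x} : Multiset QZ) = cl m x := by
      rw [← hφ]
      simp [cl, pt, F]
    rw [e1, natCast_zsmul]
  rw [h2] at h1
  have hmem : mk (helper34.DH.emb c) ∈ MG' :=
    (le_sup_left : MG ≤ MG') (AddSubgroup.subset_closure (Or.inl ⟨c, hc, rfl⟩))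
  have hhm : hh ∈ MG' := (le_sup_left : MG ≤ MG') (AddSubgroup.subset_closure (Or.inr rfl))
  have hF : F (1 / 3) ∈ MG' :=
    (le_sup_right : AddSubgroup.zmultiples (F (1 / 3)) ≤ MG') (AddSubgroup.mem_zmultiples _)
  have h3 : cls m (fun x => (e x : ℤ)) = mk (helper34.DH.emb c) - a • hh - b • F (1 / 3) +
      b' • F (1 / 3) := by
    rw [h1, C2_F23, smul_neg]
    abel
  rw [h3]
  exact MG'.add_mem (MG'.sub_mem (MG'.sub_mem hmem (MG'.nsmul_mem hhm _)) (MG'.nsmul_mem hF _))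
    (MG'.nsmul_mem hF _)

end Pool.Agent.helper76.MC
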