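import Pool.Agent.helper76.MC.Defs

/-!
Module M3 of project MC: iterated differences of the top part.
-/

namespace Pool.Agent.helper76.MC

open Finset Pool.Agent.helper34.DH Pool.Agent.helper76.FV Pool.Agent.helper76.LP
open Pool.Agent.helper76.UR
open Matrix (SpecialLinearGroup)

lemma M3_order {m : ℕ} (t : (ZMod m)ˣ) (x : ZMod m) :
    addOrderOf ((t : ZMod m) * x) = addOrderOf x := by
  apply Nat.dvd_antisymm
  · rw [addOrderOf_dvd_iff_nsmul_eq_zero, ← mul_nsmul_assoc_aux t x, addOrderOf_nsmul_eq_zero,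
      mul_zero]
  · rw [addOrderOf_dvd_iff_nsmul_eq_zero]
    have h1 : addOrderOf ((t : ZMod m) * x) • ((t : ZMod m) * x) = 0 := addOrderOf_nsmul_eq_zero _
    rw [← mul_nsmul_assoc_aux t x] at h1
    exact (Units.mul_right_eq_zero t).1 h1
where
  mul_nsmul_assoc_aux {n : ℕ} (t : (ZMod m)ˣ) (x : ZMod m) :
      (t : ZMod m) * (n • x) = n • ((t : ZMod m) * x) := by
    rw [nsmul_eq_mul, nsmul_eq_mul]; ring

theorem mdv_pre (m D : ℕ) [NeZero m] [NeZero D] (hD : D ∣ m) (c : ZMod m → ℤ) (hS : SqT m c)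
    (hmax : ∀ x, anti c x ≠ 0 → addOrderOf x ≤ D) (L : List ℕ) (hL : L.toFinset = D.primeFactors)
    (t : (ZMod m)ˣ) (ht : IsSquare t ∨ IsStar m t) :
    MDv (Gam D) L (fun z => anti c (LP.emb D m ((ZMod.unitsMap hD t * z : (ZMod D)ˣ) : ZMod D)) -
      anti c (LP.emb D m (z : ZMod D))) := by
  have hanti : ∀ x, anti (fun x => c ((t : ZMod m) * x) - c x) x =
      anti c ((t : ZMod m) * x) - anti c x := by
    intro x
    show (c ((t : ZMod m) * x) - c x) - (c ((t : ZMod m) * -x) - c (-x)) =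
      (c ((t : ZMod m) * x) - c (-((t : ZMod m) * x))) - (c x - c (-x))
    rw [mul_neg]
    ring
  have h1 := mdiff_anti m D hD (fun x => c ((t : ZMod m) * x) - c x) (hS t ht) (by
    intro x hx
    rw [hanti] at hx
    by_cases h0 : anti c x = 0
    · rw [h0, sub_zero] at hx
      rw [← M3_order t x]
      exact hmax _ hx
    · exact hmax _ h0) L hL
  have h2 : (fun z : (ZMod D)ˣ => anti (fun x => c ((t : ZMod m) * x) - c x)
      (LP.emb D m (z : ZMod D))) =
      (fun z => anti c (LP.emb D m ((ZMod.unitsMap hD t * z : (ZMod D)ˣ) : ZMod D)) -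
      anti c (LP.emb D m (z : ZMod D))) := by
    funext z
    rw [hanti, mul_emb hD]
    rfl
  rw [h2] at h1
  exact h1

end Pool.Agent.helper76.MC
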